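import Mathlib

/-! Twisting the isotypic parts of a representation with finite image (helper441). -/

set_option autoImplicit false
set_option linter.unusedSectionVars false

open NumberField Filter Topology Polynomial

namespace Pool.Agent.H441.ED.RTWC

section group

variable {G : Type} [Group G] {F : Type} [Field F] {n : ℕ}

/-- `y` maps the weight `i` to the weight `j` -/
def Mv (U : Subgroup G) (ρ : G →* GL (Fin n) F) (y : G) (i j : Fin n) : Prop :=
  ∀ u ∈ U, (ρ (y⁻¹ * u * y) : Matrix (Fin n) (Fin n) F) i i =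
    (ρ u : Matrix (Fin n) (Fin n) F) j j

variable {U : Subgroup G} {ρ : G →* GL (Fin n) F}

lemma Mv.refl (i : Fin n) : Mv U ρ 1 i i := fun u _ => by simp

lemma Mv.trans (hU : U.Normal) {y z : G} {i j k : Fin n} (h1 : Mv U ρ y i j)
    (h2 : Mv U ρ z j k) : Mv U ρ (z * y) i k := by
  intro u hu
  have hu' : z⁻¹ * u * z ∈ U := by simpa using hU.conj_mem u hu z⁻¹
  have e1 : (z * y)⁻¹ * u * (z * y) = y⁻¹ * (z⁻¹ * u * z) * y := by group
  rw [e1, h1 _ hu', h2 _ hu]

lemma Mv.symm (hU : U.Normal) {y : G} {i j : Fin n} (h1 : Mv U ρ y i j) :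
    Mv U ρ y⁻¹ j i := by
  intro u hu
  have hu' : y * u * y⁻¹ ∈ U := hU.conj_mem u hu y
  have e1 : y⁻¹⁻¹ * u * y⁻¹ = y * u * y⁻¹ := by group
  rw [e1, ← h1 _ hu']
  group

lemma key (hd : ∀ u ∈ U, (ρ u : Matrix (Fin n) (Fin n) F).IsDiag) (hU : U.Normal) {g : G}
    {i j : Fin n} (h : (ρ g : Matrix (Fin n) (Fin n) F) i j ≠ 0) : Mv U ρ g j i := by
  intro u hu
  have hu' : g⁻¹ * u * g ∈ U := by simpa using hU.conj_mem u hu g⁻¹
  have e1 : u * g = g * (g⁻¹ * u * g) := by group
  have e2 : (ρ u : Matrix (Fin n) (Fin n) F) * (ρ g : Matrix (Fin n) (Fin n) F) =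
      (ρ g : Matrix (Fin n) (Fin n) F) * (ρ (g⁻¹ * u * g) : Matrix (Fin n) (Fin n) F) := by
    have := congrArg (fun x => (ρ x : Matrix (Fin n) (Fin n) F)) e1
    simpa only [map_mul, Units.val_mul] using this
  have e3 := congrFun (congrFun e2 i) j
  rw [Matrix.mul_apply, Matrix.mul_apply, Finset.sum_eq_single i, Finset.sum_eq_single j] at e3
  · have e4 : (ρ g : Matrix (Fin n) (Fin n) F) i j *
        (ρ (g⁻¹ * u * g) : Matrix (Fin n) (Fin n) F) j j =
        (ρ g : Matrix (Fin n) (Fin n) F) i j * (ρ u : Matrix (Fin n) (Fin n) F) i i := by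
      rw [← e3, mul_comm]
    exact mul_left_cancel₀ h e4
  · intro b _ hb
    rw [hd _ hu' hb, mul_zero]
  · exact fun h' => absurd (Finset.mem_univ _) h'
  · intro b _ hb
    rw [hd _ hu hb.symm, zero_mul]
  · exact fun h' => absurd (Finset.mem_univ _) h'

lemma exists_ne (g : G) (j : Fin n) : ∃ i, (ρ g : Matrix (Fin n) (Fin n) F) i j ≠ 0 := by
  by_contra hc
  push Not at hc
  have e1 : (ρ g⁻¹ : Matrix (Fin n) (Fin n) F) * (ρ g : Matrix (Fin n) (Fin n) F) = 1 := by
    rw [← Units.val_mul, ← map_mul, inv_mul_cancel, map_one, Units.val_one]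
  have e2 := congrFun (congrFun e1 j) j
  rw [Matrix.mul_apply, Matrix.one_apply_eq] at e2
  rw [Finset.sum_eq_zero (fun i _ => by rw [hc i, mul_zero])] at e2
  exact zero_ne_one e2

/-- representatives -/
lemma reps (hU : U.Normal) (hd : ∀ u ∈ U, (ρ u : Matrix (Fin n) (Fin n) F).IsDiag) :
    ∃ (p b : Fin n → Fin n) (y : Fin n → G) (a : G → Fin n → Fin n),
      (∀ j j', p j = p j' ↔ Mv U ρ 1 j j') ∧ (∀ g j j', Mv U ρ g j j' → b j = b j') ∧
      (∀ j, Mv U ρ (y j) (b j) j) ∧ (∀ j j', Mv U ρ 1 j j' → y j = y j') ∧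
      ∀ g j, Mv U ρ g j (a g j) := by
  classical
  let s : Setoid (Fin n) := ⟨fun j j' => Mv U ρ 1 j j', fun j => Mv.refl j,
    fun {j j'} h => by simpa using h.symm hU, fun {j j' j''} h h' => by simpa using h.trans hU h'⟩
  let t : Setoid (Fin n) := ⟨fun j j' => ∃ g, Mv U ρ g j j', fun j => ⟨1, Mv.refl j⟩,
    fun {j j'} h => by obtain ⟨g, h⟩ := h; exact ⟨_, h.symm hU⟩,
    fun {j j' j''} h h' => by
      obtain ⟨g, h⟩ := h; obtain ⟨g', h'⟩ := h'; exact ⟨_, h.trans hU h'⟩⟩
  have h1 : ∀ j, Mv U ρ 1 (Quotient.mk s j).out j := fun j =>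
    Quotient.exact (Quotient.out_eq (Quotient.mk s j))
  have h2 : ∀ j, ∃ g, Mv U ρ g (Quotient.mk t j).out j := fun j =>
    Quotient.exact (Quotient.out_eq (Quotient.mk t j))
  have hp : ∀ j j', (Quotient.mk s j).out = (Quotient.mk s j').out ↔ Mv U ρ 1 j j' := by
    intro j j'
    constructor
    · intro h
      have := (h1 j).symm hU
      rw [h] at this
      simpa using this.trans hU (h1 j')
    · intro h
      exact congrArg Quotient.out (Quotient.sound (s := s) h)
  have hb : ∀ g j j', Mv U ρ g j j' → (Quotient.mk t j).out = (Quotient.mk t j').out :=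
    fun g j j' h => congrArg Quotient.out (Quotient.sound (s := t) ⟨g, h⟩)
  choose y0 hy0 using h2
  have ha : ∀ g j, ∃ i, Mv U ρ g j i := fun g j => by
    obtain ⟨i, hi⟩ := exists_ne (ρ := ρ) g j
    exact ⟨i, key hd hU hi⟩
  choose a ha using ha
  refine ⟨fun j => (Quotient.mk s j).out, fun j => (Quotient.mk t j).out,
    fun j => y0 ((Quotient.mk s j).out), a, hp, hb, ?_, ?_, ha⟩
  · intro j
    have h3 := hy0 ((Quotient.mk s j).out)
    rw [hb 1 _ j (h1 j)] at h3
    simpa using h3.trans hU (h1 j)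
  · intro j j' h
    exact congrArg y0 ((hp j j').2 h)

end group

/-- traces of matrices with `A ^ (m + 1) = A` are integral -/
lemma trace_int {F : Type} [Field F] [IsAlgClosed F] {n : ℕ} (A : Matrix (Fin n) (Fin n) F)
    (m : ℕ) (hm : 0 < m) (hA : A ^ (m + 1) = A) : IsIntegral ℤ A.trace := by
  rw [Matrix.trace_eq_sum_roots_charpoly]
  refine IsIntegral.multiset_sum ?_
  intro μ hμ
  have hr : A.charpoly.IsRoot μ := Polynomial.isRoot_of_mem_roots hμ
  have hs : μ ∈ spectrum F A := Matrix.mem_spectrum_iff_isRoot_charpoly.2 hr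
  have hp : Polynomial.aeval A (X ^ (m + 1) - X : F[X]) = 0 := by simp [hA]
  have h2 : Polynomial.eval μ (X ^ (m + 1) - X : F[X]) ∈
      spectrum F (Polynomial.aeval A (X ^ (m + 1) - X : F[X])) :=
    spectrum.subset_polynomial_aeval A _ ⟨μ, hs, rfl⟩
  rw [hp] at h2
  have hn : Nonempty (Fin n) := by
    by_contra hne
    rw [not_nonempty_iff] at hne
    have : A.charpoly = 1 := by
      rw [Matrix.charpoly, Matrix.det_isEmpty]
    rw [this] at hr
    simp [Polynomial.IsRoot] at hr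
  rw [spectrum.zero_eq, Set.mem_singleton_iff] at h2
  have h3 : μ ^ (m + 1) - μ = 0 := by simpa using h2
  refine ⟨X ^ (m + 1) - X, ?_, ?_⟩
  · have : (X ^ (m + 1) - X : ℤ[X]).Monic := by
      apply Polynomial.monic_X_pow_sub
      rw [Polynomial.degree_X]
      exact_mod_cast Nat.succ_lt_succ hm
    exact this
  · simpa using h3


/-- the sum over a class is integral -/
lemma class_int {G : Type} [Group G] {F : Type} [Field F] [IsAlgClosed F] {n : ℕ}
    {U : Subgroup G} {ρ : G →* GL (Fin n) F} (hU : U.Normal)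
    (hd : ∀ u ∈ U, (ρ u : Matrix (Fin n) (Fin n) F).IsDiag) (hf : Finite ρ.range)
    (p : Fin n → Fin n) (hp : ∀ j j', p j = p j' ↔ Mv U ρ 1 j j') (g : G) (c : Fin n) :
    IsIntegral ℤ (∑ j with p j = c, (ρ g : Matrix (Fin n) (Fin n) F) j j) := by
  classical
  by_cases h0 : ∃ j0, p j0 = c ∧ (ρ g : Matrix (Fin n) (Fin n) F) j0 j0 ≠ 0
  · obtain ⟨j0, hj0, hne⟩ := h0
    have hM0 : Mv U ρ g j0 j0 := key hd hU hne
    have hiff : ∀ i j, (ρ g : Matrix (Fin n) (Fin n) F) i j ≠ 0 → (p i = c ↔ p j = c) := by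
      intro i j hij
      have hM : Mv U ρ g j i := key hd hU hij
      rw [← hj0, hp, hp]
      constructor
      · intro h
        have h1 : Mv U ρ g j j0 := by simpa using hM.trans hU h
        simpa using h1.trans hU (hM0.symm hU)
      · intro h
        have h1 : Mv U ρ g j j0 := by simpa using h.trans hU hM0
        simpa using (hM.symm hU).trans hU h1
    obtain ⟨P, hP⟩ : ∃ P : Matrix (Fin n) (Fin n) F,
      P = Matrix.diagonal (fun j => if p j = c then 1 else 0) := ⟨_, rfl⟩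
    obtain ⟨T, hT⟩ : ∃ T : Matrix (Fin n) (Fin n) F, T = (ρ g : Matrix (Fin n) (Fin n) F) :=
      ⟨_, rfl⟩
    have hcomm : Commute P T := by
      show P * T = T * P
      ext i j
      rw [hP, Matrix.diagonal_mul, Matrix.mul_diagonal]
      by_cases hij : T i j = 0
      · rw [hij, mul_zero, zero_mul]
      · rw [hT] at hij
        have := hiff i j hij
        by_cases hi : p i = c
        · rw [if_pos hi, if_pos (this.1 hi), one_mul, mul_one]
        · rw [if_neg hi, if_neg (fun h => hi (this.2 h)), zero_mul, mul_zero]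
    have hPP : P * P = P := by
      rw [hP, Matrix.diagonal_mul_diagonal]
      congr 1
      funext j
      split_ifs <;> simp
    obtain ⟨m, hm, hTm⟩ : ∃ m : ℕ, 0 < m ∧ T ^ m = 1 := by
      have h1 : IsOfFinOrder (⟨ρ g, g, rfl⟩ : ρ.range) := isOfFinOrder_of_finite _
      obtain ⟨m, hm, h2⟩ := isOfFinOrder_iff_pow_eq_one.1 h1
      refine ⟨m, hm, ?_⟩
      have h3 : (ρ g) ^ m = 1 := congrArg Subtype.val h2
      have h4 := congrArg (fun x : GL (Fin n) F => (x : Matrix (Fin n) (Fin n) F)) h3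
      rw [hT]
      simpa using h4
    have hPm : ∀ k : ℕ, 0 < k → P ^ k = P := by
      intro k hk
      exact IsIdempotentElem.pow_eq hPP hk.ne'
    have hA : (P * T) ^ (m + 1) = P * T := by
      rw [hcomm.mul_pow, hPm _ (Nat.succ_pos _), pow_succ, hTm, one_mul]
    have htr : (P * T).trace = ∑ j with p j = c, (ρ g : Matrix (Fin n) (Fin n) F) j j := by
      rw [Matrix.trace, Finset.sum_filter]
      refine Finset.sum_congr rfl fun j _ => ?_
      rw [Matrix.diag_apply, hP, Matrix.diagonal_mul, hT]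
      split_ifs <;> simp
    rw [← htr]
    exact trace_int _ m hm hA
  · push Not at h0
    rw [Finset.sum_eq_zero]
    · exact isIntegral_zero
    · intro j hj
      exact h0 j (Finset.mem_filter.1 hj).2

theorem core (G : Type) [Group G] [TopologicalSpace G] [IsTopologicalGroup G]
    (U : Subgroup G) (n : ℕ) (ρ : G →* GL (Fin n) (AlgebraicClosure ℚ)) (k : Type) [Field k]
    (r : 𝓞 (AlgebraicClosure ℚ) →+* k)
    (C : Type) [NormedField C] (ι : AlgebraicClosure ℚ →+* C) (Ψ : Fin n → G → C)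
    (Hs : Fin n → Subgroup G) (η : ∀ i, Hs i →* Cˣ) (hU : U.Normal) (hUo : IsOpen (U : Set G))
    (hko : IsOpen (ρ.ker : Set G)) (hf : Finite ρ.range)
    (hd : ∀ u ∈ U, (ρ u : Matrix (Fin n) (Fin n) (AlgebraicClosure ℚ)).IsDiag)
    (hHs : ∀ i g, g ∈ Hs i ↔ ∀ u ∈ U,
      (ρ (g⁻¹ * u * g) : Matrix (Fin n) (Fin n) (AlgebraicClosure ℚ)) i i =
      (ρ u : Matrix (Fin n) (Fin n) (AlgebraicClosure ℚ)) i i)
    (hη : ∀ i, Continuous (fun h => (η i h : C)))
    (hηU : ∀ i, ∀ u ∈ U, ∀ h : u ∈ Hs i,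
      (η i ⟨u, h⟩ : C) * ι ((ρ u : Matrix (Fin n) (Fin n) (AlgebraicClosure ℚ)) i i) = Ψ i u)
    (hΨ : ∀ i j (y : G), (∀ u ∈ U,
      (ρ (y⁻¹ * u * y) : Matrix (Fin n) (Fin n) (AlgebraicClosure ℚ)) i i =
      (ρ u : Matrix (Fin n) (Fin n) (AlgebraicClosure ℚ)) j j) →
      ∀ u ∈ U, Ψ i (y⁻¹ * u * y) = Ψ j u) :
    ∃ R : G →* GL (Fin n) C, Continuous (fun g => (R g : Matrix (Fin n) (Fin n) C)) ∧
      (∀ u ∈ U, (R u : Matrix (Fin n) (Fin n) C) = Matrix.diagonal fun i => Ψ i u) ∧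
      ∀ g, (∀ (i : Fin n) (y : G) (h : y⁻¹ * g * y ∈ Hs i), ∃ z : 𝓞 (AlgebraicClosure ℚ),
          (η i ⟨_, h⟩ : C) = ι (z : AlgebraicClosure ℚ) ∧ r z = 1) →
        ∀ z0 : 𝓞 (AlgebraicClosure ℚ),
        (ρ g : Matrix (Fin n) (Fin n) (AlgebraicClosure ℚ)).trace = (z0 : AlgebraicClosure ℚ) →
        ∃ z : 𝓞 (AlgebraicClosure ℚ), (R g : Matrix (Fin n) (Fin n) C).trace =
          ι (z : AlgebraicClosure ℚ) ∧ r z = r z0 := by
  classical
  obtain ⟨p, b, y, a, hp, hb, hy, hy1, ha⟩ := reps hU hd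
  have hHM : ∀ i g, g ∈ Hs i ↔ Mv U ρ g i i := hHs
  -- the characters, extended by zero
  obtain ⟨E, hE⟩ : ∃ E : Fin n → G → C,
      E = fun i h => if hh : h ∈ Hs i then ((η i ⟨h, hh⟩ : Cˣ) : C) else 0 := ⟨_, rfl⟩
  have hEmem : ∀ i h (hh : h ∈ Hs i), E i h = (η i ⟨h, hh⟩ : C) := by
    intro i h hh
    rw [hE]
    exact dif_pos hh
  have hEmul : ∀ i h h', h ∈ Hs i → h' ∈ Hs i → E i (h * h') = E i h * E i h' := by
    intro i h h' hh hh'
    rw [hEmem i _ (mul_mem hh hh'), hEmem i _ hh, hEmem i _ hh', ← Units.val_mul, ← map_mul]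
    rfl
  have hEone : ∀ i, E i 1 = 1 := by
    intro i
    rw [hEmem i _ (one_mem _)]
    have : (⟨1, one_mem _⟩ : Hs i) = 1 := rfl
    rw [this, map_one, Units.val_one]
  have hmem : ∀ g j i, Mv U ρ g j i → (y i)⁻¹ * g * y j ∈ Hs (b j) := by
    intro g j i h
    rw [hHM]
    have h1 : Mv U ρ (g * y j) (b j) i := (hy j).trans hU h
    have h2 : Mv U ρ (y i)⁻¹ i (b i) := (hy i).symm hU
    have h3 := h1.trans hU h2
    rw [← hb g j i h, ← mul_assoc] at h3
    exact h3
  obtain ⟨D, hDdef⟩ : ∃ D : G → Fin n → C,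
      D = fun g j => E (b j) ((y (a g j))⁻¹ * g * y j) := ⟨_, rfl⟩
  have hD : ∀ g j i, Mv U ρ g j i → D g j = E (b j) ((y i)⁻¹ * g * y j) := by
    intro g j i h
    have h1 : Mv U ρ 1 (a g j) i := by simpa using ((ha g j).symm hU).trans hU h
    rw [hDdef]
    show E (b j) ((y (a g j))⁻¹ * g * y j) = _
    rw [hy1 _ _ h1]
  have hDone : ∀ j, D 1 j = 1 := by
    intro j
    rw [hD 1 j j (Mv.refl j), mul_one, inv_mul_cancel, hEone]
  have hDmul : ∀ g h j m, Mv U ρ h j m → D (g * h) j = D g m * D h j := by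
    intro g h j m hM
    have h1 := ha g m
    rw [hD (g * h) j _ (hM.trans hU h1), hD g m _ h1, hD h j m hM, ← hb h j m hM,
      ← hEmul (b j) _ _ (by rw [hb h j m hM]; exact hmem g m _ h1) (hmem h j m hM)]
    congr 1
    group
  -- the representation
  obtain ⟨R0, hR0⟩ : ∃ R0 : G → Matrix (Fin n) (Fin n) C, R0 = fun g => Matrix.of fun i j =>
      ι ((ρ g : Matrix (Fin n) (Fin n) (AlgebraicClosure ℚ)) i j) * D g j := ⟨_, rfl⟩
  have hR0a : ∀ g i j, R0 g i j =
      ι ((ρ g : Matrix (Fin n) (Fin n) (AlgebraicClosure ℚ)) i j) * D g j := by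
    intro g i j
    rw [hR0]
    rfl
  have hR1 : R0 1 = 1 := by
    ext i j
    rw [hR0a, map_one, Units.val_one, hDone, mul_one]
    by_cases hij : i = j
    · subst hij
      simp
    · rw [Matrix.one_apply_ne hij, Matrix.one_apply_ne hij, map_zero]
  have hRm : ∀ g h, R0 (g * h) = R0 g * R0 h := by
    intro g h
    ext i j
    rw [hR0a, map_mul, Units.val_mul, Matrix.mul_apply, Matrix.mul_apply, map_sum,
      Finset.sum_mul]
    refine Finset.sum_congr rfl fun m _ => ?_
    rw [map_mul, hR0a, hR0a]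
    by_cases hm : (ρ h : Matrix (Fin n) (Fin n) (AlgebraicClosure ℚ)) m j = 0
    · rw [hm]
      simp
    · rw [hDmul g h j m (key hd hU hm)]
      ring
  let R1 : G →* Matrix (Fin n) (Fin n) C := ⟨⟨R0, hR1⟩, hRm⟩
  have hR : ∀ g, ((R1.toHomUnits g : GL (Fin n) C) : Matrix (Fin n) (Fin n) C) = R0 g :=
    fun g => rfl
  have hUH : ∀ i, ∀ u ∈ U, Mv U ρ u i i := by
    intro i u hu
    obtain ⟨j, hj⟩ := exists_ne (ρ := ρ) u i
    have hji : j = i := by
      by_contra hne
      exact hj (hd u hu hne)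
    subst hji
    exact key hd hU hj
  refine ⟨R1.toHomUnits, ?_, ?_, ?_⟩
  · -- continuity
    refine continuous_matrix fun i j => ?_
    rw [continuous_iff_continuousAt]
    intro g0
    have hopen : IsOpen {g : G | ρ g = ρ g0} := by
      have : {g : G | ρ g = ρ g0} = (fun g => g0⁻¹ * g) ⁻¹' (ρ.ker : Set G) := by
        ext g
        simp only [Set.mem_ofPred_eq, Set.mem_preimage, SetLike.mem_coe, MonoidHom.mem_ker,
          map_mul, map_inv]
        rw [inv_mul_eq_one, eq_comm]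
      rw [this]
      exact hko.preimage (continuous_const.mul continuous_id)
    have hHo : IsOpen (Hs (b j) : Set G) :=
      Subgroup.isOpen_mono (H₁ := U) (fun u hu => (hHM _ _).2 (hUH _ u hu)) hUo
    have hev : (fun g => R0 g i j) =ᶠ[𝓝 g0] fun g =>
        ι ((ρ g0 : Matrix (Fin n) (Fin n) (AlgebraicClosure ℚ)) i j) *
          E (b j) ((y (a g0 j))⁻¹ * g * y j) := by
      filter_upwards [hopen.mem_nhds rfl] with g hg
      have hg' : ρ g = ρ g0 := hg
      rw [hR0a, hg']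
      have hM : Mv U ρ g j (a g0 j) := by
        intro u hu
        have h1 := ha g0 j u hu
        rw [← h1, map_mul, map_mul, map_inv, hg', map_mul, map_mul, map_inv]
      rw [hD g j _ hM]
    refine ContinuousAt.congr ?_ hev.symm
    refine continuousAt_const.mul ?_
    have hc1 : ContinuousAt (fun g : G => (y (a g0 j))⁻¹ * g * y j) g0 := by fun_prop
    have hx : (y (a g0 j))⁻¹ * g0 * y j ∈ Hs (b j) := hmem g0 j _ (ha g0 j)
    have hc2 : ContinuousAt (E (b j)) ((y (a g0 j))⁻¹ * g0 * y j) := by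
      have h1 : ContinuousAt (E (b j) ∘ (Subtype.val : Hs (b j) → G))
          ⟨(y (a g0 j))⁻¹ * g0 * y j, hx⟩ := by
        have : (E (b j) ∘ (Subtype.val : Hs (b j) → G)) = fun h => (η (b j) h : C) := by
          funext h
          exact hEmem (b j) h.1 h.2
        rw [this]
        exact (hη (b j)).continuousAt
      exact (hHo.isOpenEmbedding_subtypeVal.continuousAt_iff).1 h1
    exact ContinuousAt.comp (g := E (b j)) (f := fun g : G => (y (a g0 j))⁻¹ * g * y j) hc2 hc1
  · -- the subgroup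
    intro u hu
    rw [hR]
    ext i j
    rw [hR0a]
    by_cases hij : i = j
    · subst hij
      rw [Matrix.diagonal_apply_eq, hD u i i (hUH i u hu)]
      have hu' : (y i)⁻¹ * u * y i ∈ U := by simpa using hU.conj_mem u hu (y i)⁻¹
      have hm := hmem u i i (hUH i u hu)
      rw [hEmem (b i) _ hm, ← hy i u hu, mul_comm, hηU (b i) _ hu' hm]
      exact hΨ (b i) i (y i) (hy i) u hu
    · rw [Matrix.diagonal_apply_ne _ hij, hd u hu hij, map_zero, zero_mul]
  · -- the trace
    intro g hg z0 hz0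
    rw [hR]
    choose z1 hz1 hz1r using hg
    have ht : ∀ c, ∃ t : 𝓞 (AlgebraicClosure ℚ), (t : AlgebraicClosure ℚ) =
        ∑ j with p j = c, (ρ g : Matrix (Fin n) (Fin n) (AlgebraicClosure ℚ)) j j := by
      intro c
      exact ⟨⟨_, class_int hU hd hf p hp g c⟩, rfl⟩
    choose t ht using ht
    have hw : ∀ c, ∃ w : 𝓞 (AlgebraicClosure ℚ), r w = 1 ∧ ∀ j, p j = c →
        (ρ g : Matrix (Fin n) (Fin n) (AlgebraicClosure ℚ)) j j ≠ 0 →
          D g j = ι (w : AlgebraicClosure ℚ) := by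
      intro c
      by_cases h0 : ∃ j0, p j0 = c ∧
          (ρ g : Matrix (Fin n) (Fin n) (AlgebraicClosure ℚ)) j0 j0 ≠ 0
      · obtain ⟨j0, hj0, hne⟩ := h0
        have hM0 : Mv U ρ g j0 j0 := key hd hU hne
        have hm0 := hmem g j0 j0 hM0
        refine ⟨z1 (b j0) (y j0) hm0, hz1r _ _ _, ?_⟩
        intro j hj hne'
        have hM : Mv U ρ g j j := key hd hU hne'
        have hcl : Mv U ρ 1 j j0 := (hp j j0).1 (hj.trans hj0.symm)
        rw [← hz1, ← hEmem _ _ hm0, hD g j j hM, hy1 _ _ hcl, hb _ _ _ hcl]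
      · push Not at h0
        exact ⟨1, map_one r, fun j hj hne => absurd (h0 j hj) hne⟩
    choose w hwr hw using hw
    refine ⟨∑ c, t c * w c, ?_, ?_⟩
    · show _ = ι (algebraMap (𝓞 (AlgebraicClosure ℚ)) (AlgebraicClosure ℚ) (∑ c, t c * w c))
      rw [Matrix.trace, ← Finset.sum_fiberwise Finset.univ p, map_sum, map_sum]
      refine Finset.sum_congr rfl fun c _ => ?_
      have ht' : algebraMap (𝓞 (AlgebraicClosure ℚ)) (AlgebraicClosure ℚ) (t c) =
        ∑ j with p j = c, (ρ g : Matrix (Fin n) (Fin n) (AlgebraicClosure ℚ)) j j := ht c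
      rw [map_mul, map_mul, ht', map_sum, Finset.sum_mul]
      refine Finset.sum_congr rfl fun j hj => ?_
      have hj' : p j = c := (Finset.mem_filter.1 hj).2
      rw [Matrix.diag_apply, hR0a]
      by_cases h0 : (ρ g : Matrix (Fin n) (Fin n) (AlgebraicClosure ℚ)) j j = 0
      · rw [h0, map_zero, zero_mul, zero_mul]
      · rw [hw c j hj' h0]
    · have hz : z0 = ∑ c, t c := by
        apply RingOfIntegers.coe_injective
        have hz0' : algebraMap (𝓞 (AlgebraicClosure ℚ)) (AlgebraicClosure ℚ) z0 =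
          (ρ g : Matrix (Fin n) (Fin n) (AlgebraicClosure ℚ)).trace := hz0.symm
        rw [hz0', map_sum, Matrix.trace, ← Finset.sum_fiberwise Finset.univ p]
        refine Finset.sum_congr rfl fun c _ => ?_
        exact (ht c).symm
      rw [hz, map_sum, map_sum]
      refine Finset.sum_congr rfl fun c _ => ?_
      rw [map_mul, hwr, mul_one]

end Pool.Agent.H441.ED.RTWC
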