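import Pool.Agent.H500.ED.Stm
import Pool.Agent.H441.ED.RTWC

/-! ED E3 (helper441): twisting the isotypic parts. -/

set_option autoImplicit false

namespace Pool.Agent.H441.ED.RTW

theorem main : Pool.Agent.H500.ED.S_RTW := by
  intro G _ _ _ U n ρ' k _ r C _ ι Ψ Hs η hU hUo hko hf hd hHs hη hηU hΨ
  exact Pool.Agent.H441.ED.RTWC.core G U n ρ' k r C ι Ψ Hs η hU hUo hko hf hd hHs hη hηU hΨ

end Pool.Agent.H441.ED.RTW
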